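import Pool.Agent.Y321.PD.Main

/-!
# MP_0a0487_an: Anosov diffeomorphisms with bounded distortion at the periodic points: coverings
-/

set_option autoImplicit false

open scoped Manifold ContDiff Topology Bundle
open Set Filter Bundle

namespace Pool.Agent.Results.MP_0a0487_an.PeriodicDistortionCovered

open Pool.Agent.H721R2 Pool.Agent.H789R2.AN Pool.Agent.H779R2.An

/-- `|det D(fᵏ)(p)|`, for a point `p` with `fᵏ(p) = p`: the absolute value of the determinant of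
the derivative of `fᵏ` at `p`, which is an endomorphism of the tangent space at `p`. -/
noncomputable def perJac (E : Type*) [NormedAddCommGroup E] [NormedSpace ℝ E]
    {M : Type*} [TopologicalSpace M] [ChartedSpace E M] (f : M → M) (k : ℕ) (p : M) : ℝ :=
  |(mfderiv 𝓘(ℝ, E) 𝓘(ℝ, E) (f^[k]) p : E →L[ℝ] E).det|

/-- The return maps `D(fᵏ)`, `fᵏ(p) = p`, `k ≥ 1`, have uniformly bounded distortion on the
subspaces `V p`: for some constant `K`, `‖D(fᵏ) v‖ / ‖v‖ ≤ K ‖D(fᵏ) w‖ / ‖w‖` for all such `k`, `p`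
and all `v, w ∈ V p` (written without denominators). Only periodic points are involved. -/
def PeriodicDistortion {E : Type*} [NormedAddCommGroup E] [NormedSpace ℝ E]
    {M : Type*} [TopologicalSpace M] [ChartedSpace E M] (f : M → M)
    (N : TangentBundle 𝓘(ℝ, E) M → ℝ) (V : ∀ x : M, Submodule ℝ (TangentSpace 𝓘(ℝ, E) x)) : Prop :=
  ∃ K : ℝ, ∀ (k : ℕ) (p : M), 1 ≤ k → f^[k] p = p → ∀ v ∈ V p, ∀ w ∈ V p,
    N (tangentMap 𝓘(ℝ, E) 𝓘(ℝ, E) (f^[k]) ⟨p, v⟩) * N ⟨p, w⟩ ≤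
      K * (N (tangentMap 𝓘(ℝ, E) 𝓘(ℝ, E) (f^[k]) ⟨p, w⟩) * N ⟨p, v⟩)

/-- **Anosov diffeomorphisms whose return maps have bounded distortion on one bundle: universal
cover.**
Let `f` be a `C²` Anosov diffeomorphism of a closed connected smooth manifold `M` modelled on the
finite-dimensional space `E`, with splitting `TM = Es ⊕ Eu` of ranks `ds, du ≥ 2`.  Suppose that

* the return maps `D(fᵏ)(p)`, `fᵏ(p) = p`, have uniformly bounded distortion on ONE of the two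
  bundles (`PeriodicDistortion`), and
* `|det D(fᵏ)(p)| ≥ 1` whenever `k ≥ 1` and `fᵏ(p) = p`, or `|det D(fᵏ)(p)| ≤ 1` whenever `k ≥ 1`
  and `fᵏ(p) = p` (or, instead of this, every point of `M` is nonwandering).

So there are hypotheses at the periodic points only.  Then there is a surjective covering map
`E → M`, where `E ≅ ℝⁿ`, `n = dim M`. -/
theorem result (E : Type*) [NormedAddCommGroup E] [NormedSpace ℝ E] [FiniteDimensional ℝ E]
    (M : Type*) [TopologicalSpace M] [T2Space M] [CompactSpace M] [ConnectedSpace M]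
    [ChartedSpace E M] [IsManifold 𝓘(ℝ, E) ∞ M] (f : Diffeomorph 𝓘(ℝ, E) 𝓘(ℝ, E) M M 1)
    (hf2 : ContMDiff 𝓘(ℝ, E) 𝓘(ℝ, E) 2 f) (hf2' : ContMDiff 𝓘(ℝ, E) 𝓘(ℝ, E) 2 f.symm)
    (Es Eu : ∀ x : M, Submodule ℝ (TangentSpace 𝓘(ℝ, E) x)) (hA : IsAnosov f Es Eu)
    (N : TangentBundle 𝓘(ℝ, E) M → ℝ) (hN : IsTangentNorm N)
    (ds du : ℕ) (h2s : 2 ≤ ds) (h2u : 2 ≤ du) (hds : ∀ x, Module.finrank ℝ (Es x) = ds)
    (hdu : ∀ x, Module.finrank ℝ (Eu x) = du)
    (hD : PeriodicDistortion f N Eu ∨ PeriodicDistortion f N Es)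
    (hJ : (∀ (k : ℕ) (p : M), 1 ≤ k → f^[k] p = p → 1 ≤ perJac E f k p) ∨
      (∀ (k : ℕ) (p : M), 1 ≤ k → f^[k] p = p → perJac E f k p ≤ 1) ∨
      (∀ U : Set M, IsOpen U → U.Nonempty → ∃ n : ℕ, 1 ≤ n ∧ (f^[n] '' U ∩ U).Nonempty)) :
    ∃ q : E → M, IsCoveringMap q ∧ Function.Surjective q := by
  have hnw := Pool.Agent.Y321.PD.nw_of_jac f hf2 hf2' Es Eu hA (by
    rcases hJ with h | h | h
    · exact Or.inr (Or.inl h)
    · exact Or.inr (Or.inr h)
    · exact Or.inl h)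
  exact (Pool.Agent.Y321.PD.main_per E M f hf2 hf2' Es Eu hA N hN ds du h2s h2u hds hdu hnw hD).2

end Pool.Agent.Results.MP_0a0487_an.PeriodicDistortionCovered
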