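import Pool.Agent.Y330.N.B6

set_option autoImplicit false

open scoped Manifold ContDiff Topology
open Set Filter

namespace Pool.Agent.Results.MP_0a0487_an.QuasiMoebiusLeafCovered

open Pool.Agent.H721R2 Pool.Agent.H789R2.AN Pool.Agent.Y330.N Pool.Agent.Y330.H

/-- **Anosov diffeomorphisms with quasi-Möbius holonomies along one leaf, or with weakly
quasisymmetric holonomies: coverings.**
Let `f` be a `C¹` Anosov diffeomorphism of a closed connected manifold `M` modelled on the
finite-dimensional space `E`.  There is a neighbourhood `𝒰₀` of the diagonal of `M × M` such that the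
following holds for every neighbourhood `𝒰` of the diagonal contained in `𝒰₀` and for `g = f` or
`g = f⁻¹`.  Suppose that

* for ONE point `p`, the holonomies along the stable leaf of `p` are uniformly (weakly) quasi-Möbius
  (`QuasiMoebiusAlong g 𝒰 p`): for every `i` there is `k` such that, if `x`, `y`, `z`, `w` are stable
  paths of whatever length, `x s`, `y s`, `z s`, `w s` lie in the same unstable leaf, `x` is a path
  in the stable leaf of `p` and the cross ratio of `x 0`, `y 0`, `z 0`, `w 0` is at most `i`, then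
  that of `x 1`, `y 1`, `z 1`, `w 1` is at most `k` (distances in the unstable leaves are measured by
  the levels, that is, by the time at which the backward orbits become `𝒰`-close), or
* the stable holonomies are uniformly weakly quasisymmetric (`QuasisymmetricHolonomy g 𝒰`): for each
  `i` there is `k` such that, if the stable holonomy along a stable path from `x` to `x'`, of
  whatever length, takes `y` to `y'` and `z` to `z'`, where the level of `x`, `y` is at most `0`, the
  level of `x`, `z` is greater than `0` and the level of `x'`, `z'` is at most `i`, then the level of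
  `x'`, `y'` is at most `k`.

Then there is a surjective covering map `E → M`, where `E ≅ ℝⁿ`, `n = dim M`. -/
theorem result (E : Type*) [NormedAddCommGroup E] [NormedSpace ℝ E] [FiniteDimensional ℝ E]
    (M : Type*) [TopologicalSpace M] [T2Space M] [CompactSpace M] [ConnectedSpace M]
    [ChartedSpace E M] [IsManifold 𝓘(ℝ, E) ∞ M] (f : Diffeomorph 𝓘(ℝ, E) 𝓘(ℝ, E) M M 1)
    (Es Eu : ∀ x : M, Submodule ℝ (TangentSpace 𝓘(ℝ, E) x)) (hA : IsAnosov f Es Eu) :
    ∃ 𝒰₀ ∈ 𝓝ˢ (diagonal M), ∀ 𝒰 ∈ 𝓝ˢ (diagonal M), 𝒰 ⊆ 𝒰₀ →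
      ∀ g : M ≃ₜ M, (g = f.toHomeomorph ∨ g = f.toHomeomorph.symm) →
      ((∃ p : M, QuasiMoebiusAlong g 𝒰 p) ∨ QuasisymmetricHolonomy g 𝒰) →
      ∃ π : E → M, IsCoveringMap π ∧ Function.Surjective π := by
  obtain ⟨𝒰₀, h1, h2⟩ := man_final f Es Eu hA
  refine ⟨𝒰₀, h1, fun 𝒰 h𝒰 hsub g hg h => ?_⟩
  obtain ⟨a1, a2, a3⟩ := h2 𝒰 h𝒰 hsub g hg
  rcases h with ⟨p, hp⟩ | h
  · exact (a3 ((a2 p).1 hp)).2.2.1
  · exact (a3 (a1.1 h)).2.2.1

end Pool.Agent.Results.MP_0a0487_an.QuasiMoebiusLeafCovered
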